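import Mathlib

/-! TOR: ordered products over nested families of half-spaces. Dehn twists, pushes and multitwists
are products of this kind; the cocycle property is proved once and for all. -/

set_option autoImplicit false

namespace Pool.Agent.TOR.H18

section sorted

variable {Ω : Type*}

theorem sorted_nodup {L : List (Set Ω)} (h : L.Pairwise (fun B C => C ⊂ B)) : L.Nodup :=
  h.imp fun {a b} hab => by
    rintro rfl
    exact lt_irrefl _ hab

theorem sorted_unique {L M : List (Set Ω)} (h1 : L.Pairwise (fun B C => C ⊂ B))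
    (h2 : M.Pairwise (fun B C => C ⊂ B)) (h : ∀ B, B ∈ L ↔ B ∈ M) : L = M := by
  have hp : L.Perm M := (List.perm_ext_iff_of_nodup (sorted_nodup h1) (sorted_nodup h2)).mpr h
  refine List.Perm.eq_of_pairwise ?_ h1 h2 hp
  intro a b _ _ hab hba
  exact (lt_asymm hab hba).elim

theorem exists_sorted (S : Finset (Set Ω)) (hch : ∀ B ∈ S, ∀ C ∈ S, B ⊆ C ∨ C ⊆ B) :
    ∃ L : List (Set Ω), (∀ B, B ∈ L ↔ B ∈ S) ∧ L.Pairwise (fun B C => C ⊂ B) := by
  classical
  induction hn : S.card generalizing S with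
  | zero =>
    rw [Finset.card_eq_zero] at hn
    subst hn
    exact ⟨[], by simp, List.Pairwise.nil⟩
  | succ n ih =>
    have hne : S.Nonempty := by
      rw [← Finset.card_pos, hn]; omega
    obtain ⟨M, hM, hmax⟩ := S.exists_maximal hne
    obtain ⟨L, hL, hs⟩ := ih (S.erase M) (fun B hB C hC =>
      hch B (Finset.mem_of_mem_erase hB) C (Finset.mem_of_mem_erase hC))
      (by rw [Finset.card_erase_of_mem hM, hn]; rfl)
    refine ⟨M :: L, ?_, ?_⟩
    · intro B
      rw [List.mem_cons, hL, Finset.mem_erase]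
      constructor
      · rintro (rfl | h)
        · exact hM
        · exact h.2
      · intro h
        by_cases hB : B = M
        · exact Or.inl hB
        · exact Or.inr ⟨hB, h⟩
    · rw [List.pairwise_cons]
      refine ⟨fun C hC => ?_, hs⟩
      rw [hL, Finset.mem_erase] at hC
      have h1 : C ⊆ M := by
        rcases hch C hC.2 M hM with h | h
        · exact h
        · exact hmax hC.2 h
      exact lt_of_le_of_ne h1 hC.1

end sorted

/-- nested family of half-spaces closed under complement, with finite separation -/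
structure Poc {Ω : Type*} (H : Set (Set Ω)) : Prop where
  compl : ∀ B ∈ H, Bᶜ ∈ H
  nest : ∀ B ∈ H, ∀ C ∈ H, B ⊆ C ∨ C ⊆ B ∨ B ⊆ Cᶜ ∨ Bᶜ ⊆ C
  fin : ∀ p q : Ω, {B | B ∈ H ∧ p ∉ B ∧ q ∈ B}.Finite

/-- list of the half-spaces crossed on the way from p to q -/
structure IsPath {Ω : Type*} (H : Set (Set Ω)) (p q : Ω) (L : List (Set Ω)) : Prop where
  mem : ∀ B, B ∈ L ↔ B ∈ H ∧ p ∉ B ∧ q ∈ B
  ord : L.Pairwise (fun B C => C ⊂ B)

section path

variable {Ω : Type*} {H : Set (Set Ω)}

theorem Poc.chain (hH : Poc H) {p q : Ω} {B C : Set Ω} (hB : B ∈ H) (hC : C ∈ H)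
    (h1 : p ∉ B) (h2 : q ∈ B) (h3 : p ∉ C) (h4 : q ∈ C) : B ⊆ C ∨ C ⊆ B := by
  rcases hH.nest B hB C hC with h | h | h | h
  · exact Or.inl h
  · exact Or.inr h
  · exact absurd h4 (h h2)
  · exact absurd (h h1) h3

theorem Poc.exists_path (hH : Poc H) (p q : Ω) : ∃ L, IsPath H p q L := by
  obtain ⟨L, h1, h2⟩ := exists_sorted (hH.fin p q).toFinset (by
    intro B hB C hC
    rw [Set.Finite.mem_toFinset] at hB hC
    exact hH.chain hB.1 hC.1 hB.2.1 hB.2.2 hC.2.1 hC.2.2)
  exact ⟨L, fun B => by rw [h1, Set.Finite.mem_toFinset]; rfl, h2⟩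

theorem IsPath.unique {p q : Ω} {L M : List (Set Ω)} (h1 : IsPath H p q L) (h2 : IsPath H p q M) :
    L = M := sorted_unique h1.ord h2.ord fun B => by rw [h1.mem, h2.mem]

theorem IsPath.refl (p : Ω) : IsPath H p p [] :=
  ⟨fun B => by simp, List.Pairwise.nil⟩

theorem IsPath.of_none {p q : Ω} (h : ∀ B ∈ H, p ∈ B ↔ q ∈ B) (hH : Poc H) : IsPath H p q [] :=
  ⟨fun B => by
    have := hH
    simp only [List.not_mem_nil, false_iff, not_and]
    intro hB h1 h2
    exact h1 ((h B hB).mpr h2), List.Pairwise.nil⟩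

theorem IsPath.reverse (hH : Poc H) {p q : Ω} {L : List (Set Ω)} (h : IsPath H p q L) :
    IsPath H q p (L.map compl).reverse := by
  refine ⟨fun B => ?_, ?_⟩
  · rw [List.mem_reverse, List.mem_map]
    constructor
    · rintro ⟨C, hC, rfl⟩
      rw [h.mem] at hC
      exact ⟨hH.compl C hC.1, fun h' => h' hC.2.2, hC.2.1⟩
    · rintro ⟨h1, h2, h3⟩
      refine ⟨Bᶜ, (h.mem _).mpr ⟨hH.compl B h1, fun h' => h' h3, h2⟩, compl_compl B⟩
  · rw [List.pairwise_reverse, List.pairwise_map]
    exact h.ord.imp fun {B C} hBC => by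
      rw [Set.ssubset_def] at hBC ⊢
      exact ⟨Set.compl_subset_compl.mpr hBC.1, fun h' => hBC.2 (Set.compl_subset_compl.mp h')⟩

/-- the part of a path whose elements satisfy an upward closed condition comes first -/
theorem sorted_split {L : List (Set Ω)} (hL : L.Pairwise (fun B C => C ⊂ B)) (P : Set Ω → Prop)
    [DecidablePred P] (hP : ∀ B ∈ L, ∀ C ∈ L, P B → B ⊆ C → P C) :
    L = L.filter (fun B => P B) ++ L.filter (fun B => ¬ P B) := by
  induction L with
  | nil => simp
  | cons B L ih =>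
    rw [List.pairwise_cons] at hL
    have ih' := ih hL.2 (fun B hB C hC => hP B (List.mem_cons_of_mem _ hB) C
      (List.mem_cons_of_mem _ hC))
    by_cases hB : P B
    · rw [List.filter_cons_of_pos (by simpa using hB), List.filter_cons_of_neg (by simpa using hB),
        List.cons_append, ← ih']
    · have hno : ∀ C ∈ L, ¬ P C := fun C hC hPC =>
        hB (hP C (List.mem_cons_of_mem _ hC) B (List.mem_cons_self ..) hPC (hL.1 C hC).le)
      have h1 : (B :: L).filter (fun B => P B) = [] := by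
        rw [List.filter_eq_nil_iff]
        intro C hC
        rcases List.mem_cons.mp hC with rfl | h
        · simpa using hB
        · simpa using hno C h
      have h2 : (B :: L).filter (fun B => ¬ P B) = B :: L := by
        rw [List.filter_eq_self]
        intro C hC
        rcases List.mem_cons.mp hC with rfl | h
        · simpa using hB
        · simpa using hno C h
      rw [h1, h2, List.nil_append]

open Classical in
theorem IsPath.trans (hH : Poc H) {p q r : Ω} {L M : List (Set Ω)} (h1 : IsPath H p q L)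
    (h2 : IsPath H q r M) : ∃ A B C : List (Set Ω), L = A ++ B ∧ M = (B.map compl).reverse ++ C ∧
      IsPath H p r (A ++ C) := by
  have e1 := sorted_split h1.ord (fun B => r ∈ B) (fun B _ C _ hr hs => hs hr)
  have e2 := sorted_split h2.ord (fun B => p ∈ B) (fun B _ C _ hr hs => hs hr)
  refine ⟨L.filter (fun B => r ∈ B), L.filter (fun B => ¬ r ∈ B), M.filter (fun B => ¬ p ∈ B),
    e1, ?_, ?_, ?_⟩
  · have e3 : M.filter (fun B => p ∈ B) =
        ((L.filter (fun B => ¬ r ∈ B)).map compl).reverse := by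
      refine sorted_unique (h2.ord.filter _) ?_ ?_
      · rw [List.pairwise_reverse, List.pairwise_map]
        refine (h1.ord.filter _).imp fun {B C} hBC => ?_
        rw [Set.ssubset_def] at hBC ⊢
        exact ⟨Set.compl_subset_compl.mpr hBC.1, fun h' => hBC.2 (Set.compl_subset_compl.mp h')⟩
      · intro B
        rw [List.mem_filter, List.mem_reverse, List.mem_map, h2.mem]
        constructor
        · rintro ⟨⟨a, b, c⟩, d⟩
          refine ⟨Bᶜ, ?_, compl_compl B⟩
          rw [List.mem_filter, h1.mem]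
          simp only [decide_eq_true_eq] at d ⊢
          exact ⟨⟨hH.compl B a, fun h => h d, b⟩, fun h => h c⟩
        · rintro ⟨C, hC, rfl⟩
          rw [List.mem_filter, h1.mem] at hC
          simp only [decide_eq_true_eq] at hC ⊢
          exact ⟨⟨hH.compl C hC.1.1, fun h => h hC.1.2.2, hC.2⟩, hC.1.2.1⟩
    rw [← e3]; exact e2
  · intro B
    rw [List.mem_append, List.mem_filter, List.mem_filter, h1.mem, h2.mem]
    simp only [decide_eq_true_eq]
    tauto
  · rw [List.pairwise_append]
    refine ⟨h1.ord.filter _, h2.ord.filter _, fun B hB C hC => ?_⟩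
    rw [List.mem_filter, h1.mem] at hB
    rw [List.mem_filter, h2.mem] at hC
    simp only [decide_eq_true_eq] at hB hC
    obtain ⟨⟨b1, b2, b3⟩, b4⟩ := hB
    obtain ⟨⟨c1, c2, c3⟩, c4⟩ := hC
    rcases hH.nest B b1 C c1 with h | h | h | h
    · exact absurd (h b3) c2
    · refine lt_of_le_of_ne h ?_
      rintro rfl
      exact c2 b3
    · exact absurd c3 (h b4)
    · exact absurd (h b2) c4

end path

section product

variable {Ω : Type*} {K : Type*} [Group K]

open Classical in
/-- THE ORDERED PRODUCT of τ over the half-spaces crossed from p to q -/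
noncomputable def Th (H : Set (Set Ω)) (τ : Set Ω → K) (p q : Ω) : K :=
  if h : ∃ L, IsPath H p q L then (h.choose.map τ).prod else 1

variable {H : Set (Set Ω)} {τ : Set Ω → K}

theorem IsPath.th {p q : Ω} {L : List (Set Ω)} (h : IsPath H p q L) :
    Th H τ p q = (L.map τ).prod := by
  have h' : ∃ L, IsPath H p q L := ⟨L, h⟩
  rw [Th, dif_pos h', h.unique h'.choose_spec]

theorem Th_self (p : Ω) : Th H τ p p = 1 := by rw [(IsPath.refl p).th]; rfl

theorem Th_none (hH : Poc H) {p q : Ω} (h : ∀ B ∈ H, p ∈ B ↔ q ∈ B) : Th H τ p q = 1 := by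
  rw [(IsPath.of_none h hH).th]; rfl

theorem Th_single {p q : Ω} {B : Set Ω} (h : ∀ C, (C ∈ H ∧ p ∉ C ∧ q ∈ C) ↔ C = B) :
    Th H τ p q = τ B := by
  have : IsPath H p q [B] := ⟨fun C => by rw [List.mem_singleton, h], List.pairwise_singleton _ _⟩
  rw [this.th]; simp

theorem prod_compl (hτ : ∀ B ∈ H, τ Bᶜ = (τ B)⁻¹) : ∀ {L : List (Set Ω)}, (∀ B ∈ L, B ∈ H) →
    (((L.map compl).reverse).map τ).prod = ((L.map τ).prod)⁻¹ := by
  intro L
  induction L with
  | nil => intro _; simp
  | cons B L ih =>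
    intro h
    rw [List.map_cons, List.reverse_cons, List.map_append, List.prod_append, ih fun C hC =>
      h C (List.mem_cons_of_mem _ hC)]
    simp only [List.map_cons, List.map_nil, List.prod_cons, List.prod_nil, mul_one]
    rw [hτ B (h B (List.mem_cons_self ..)), mul_inv_rev]

theorem Th_trans (hH : Poc H) (hτ : ∀ B ∈ H, τ Bᶜ = (τ B)⁻¹) (p q r : Ω) :
    Th H τ p q * Th H τ q r = Th H τ p r := by
  obtain ⟨L, hL⟩ := hH.exists_path p q
  obtain ⟨M, hM⟩ := hH.exists_path q r
  obtain ⟨A, B, C, rfl, rfl, h⟩ := hL.trans hH hM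
  rw [hL.th, hM.th, h.th, List.map_append, List.map_append, List.map_append, List.prod_append,
    List.prod_append, List.prod_append, prod_compl hτ fun D hD =>
      ((hL.mem D).mp (List.mem_append_right _ hD)).1]
  group

theorem Th_inv (hH : Poc H) (hτ : ∀ B ∈ H, τ Bᶜ = (τ B)⁻¹) (p q : Ω) :
    Th H τ q p = (Th H τ p q)⁻¹ := by
  rw [eq_inv_iff_mul_eq_one, Th_trans hH hτ, Th_self]

/-- a Th with values in a subgroup -/
theorem Th_mem (S : Subgroup K) (h : ∀ B ∈ H, τ B ∈ S) (p q : Ω) : Th H τ p q ∈ S := by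
  by_cases h' : ∃ L, IsPath H p q L
  · obtain ⟨L, hL⟩ := h'
    rw [hL.th]
    refine S.list_prod_mem ?_
    intro x hx
    obtain ⟨B, hB, rfl⟩ := List.mem_map.mp hx
    exact h B ((hL.mem B).mp hB).1
  · rw [Th, dif_neg h']; exact S.one_mem

/-- equivariance -/
theorem Th_map (hH : Poc H) {Ω' K' : Type*} [Group K'] (H' : Set (Set Ω')) (τ' : Set Ω' → K')
    (e : Ω ≃ Ω') (θ : K →* K') (he : ∀ B, B ∈ H ↔ e '' B ∈ H')
    (hθ : ∀ B ∈ H, θ (τ B) = τ' (e '' B)) (p q : Ω) :
    θ (Th H τ p q) = Th H' τ' (e p) (e q) := by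
  obtain ⟨L, hL⟩ := hH.exists_path p q
  have h' : IsPath H' (e p) (e q) (L.map fun B => e '' B) := by
    refine ⟨fun B => ?_, ?_⟩
    · rw [List.mem_map]
      constructor
      · rintro ⟨C, hC, rfl⟩
        rw [hL.mem] at hC
        exact ⟨(he C).mp hC.1, fun h => hC.2.1 (e.injective.mem_set_image.mp h),
          e.injective.mem_set_image.mpr hC.2.2⟩
      · rintro ⟨h1, h2, h3⟩
        refine ⟨e.symm '' B, (hL.mem _).mpr ⟨?_, ?_, ?_⟩, by
          rw [← Set.image_comp]; simp⟩
        · rw [he, ← Set.image_comp]; simpa using h1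
        · intro h
          obtain ⟨x, hx, rfl⟩ := h
          rw [e.apply_symm_apply] at h2
          exact h2 hx
        · exact ⟨e q, h3, e.symm_apply_apply q⟩
    · rw [List.pairwise_map]
      refine hL.ord.imp fun {B C} hBC => ?_
      rw [Set.ssubset_def] at hBC ⊢
      exact ⟨Set.image_mono hBC.1, fun h => hBC.2 ((Set.image_subset_image_iff e.injective).mp h)⟩
  rw [hL.th, h'.th, map_list_prod, List.map_map, List.map_map]
  congr 1
  refine List.map_congr_left fun B hB => ?_
  exact hθ B ((hL.mem B).mp hB).1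

/-- pointwise product rule: if τ = τ₁ * τ₂ with values τ₂ commuting with everything -/
theorem Th_hom {K' : Type*} [Group K'] (θ : K →* K') (hH : Poc H) (p q : Ω) :
    θ (Th H τ p q) = Th H (fun B => θ (τ B)) p q := by
  obtain ⟨L, hL⟩ := hH.exists_path p q
  rw [hL.th, hL.th, map_list_prod, List.map_map]
  rfl

end product

section action

variable {G Ω P : Type*} [Group G] [MulAction G Ω] [Group P] {H : Set (Set Ω)} {τ : Set Ω → P}

open Pointwise

/-- the crossed homomorphism a ↦ Th o (a o) and the homomorphism a ↦ Th o (a o) * j a -/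
noncomputable def twH (hH : Poc H) (hτ : ∀ B ∈ H, τ Bᶜ = (τ B)⁻¹) (o : Ω) (j : G →* P)
    (hG : ∀ (g : G), ∀ B ∈ H, g • B ∈ H)
    (hj : ∀ (g : G), ∀ B ∈ H, τ (g • B) = j g * τ B * (j g)⁻¹) : G →* P where
  toFun a := Th H τ o (a • o) * j a
  map_one' := by rw [one_smul, Th_self, map_one, one_mul]
  map_mul' a b := by
    have h1 : Th H τ (a • o) ((a * b) • o) = j a * Th H τ o (b • o) * (j a)⁻¹ := by
      have h2 := Th_map hH H τ (MulAction.toPerm a) (MulAut.conj (j a)).toMonoidHom
        (fun B => ⟨fun h => hG a B h, fun h => by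
          have := hG a⁻¹ _ h
          change a⁻¹ • a • B ∈ H at this
          rwa [inv_smul_smul] at this⟩)
        (fun B hB => (hj a B hB).symm) o (b • o)
      rw [mul_smul]
      exact h2.symm
    rw [← Th_trans hH hτ o (a • o) ((a * b) • o), h1, map_mul]
    group

theorem twH_apply (hH : Poc H) (hτ : ∀ B ∈ H, τ Bᶜ = (τ B)⁻¹) (o : Ω) (j : G →* P)
    (hG : ∀ (g : G), ∀ B ∈ H, g • B ∈ H)
    (hj : ∀ (g : G), ∀ B ∈ H, τ (g • B) = j g * τ B * (j g)⁻¹) (a : G) :
    twH hH hτ o j hG hj a = Th H τ o (a • o) * j a := rfl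

end action

end Pool.Agent.TOR.H18
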